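import Pool.Agent.Y462.SS.St

/-!
# Wreath products with a finite symmetric group
-/

set_option autoImplicit false

namespace Pool.Agent.Y812.SS

open Pool.Agent.Y462.SS

variable {C : ∀ (G : Type) [Group G], Prop}

theorem C_subsingleton (hC : Closed C) (G : Type) [Group G] [Subsingleton G] : C G :=
  hC.of_injective G (Multiplicative ℤ) 1 (fun _ _ _ => Subsingleton.elim _ _) hC.int

/-- every finite group is in the class -/
theorem C_finite (hC : Closed C) (G : Type) [Group G] [Finite G] : C G :=
  hC.finiteIndex G ⊥ inferInstance (C_subsingleton hC _)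

/-- the class is invariant under isomorphisms -/
theorem C_equiv (hC : Closed C) {G H : Type} [Group G] [Group H] (e : G ≃* H) (h : C H) : C G :=
  hC.of_injective G H e.toMonoidHom e.injective h

/-- finite powers -/
theorem C_pow (hC : Closed C) (X Γ : Type) [Group Γ] [hX : Finite X] (h : C Γ) : C (X → Γ) := by
  refine Finite.induction_empty_option (P := fun X : Type => C (X → Γ)) ?_ ?_ ?_ X
  · intro α β e hα
    refine hC.of_injective (β → Γ) (α → Γ)
      { toFun := fun f a => f (e a), map_one' := rfl, map_mul' := fun _ _ => rfl } ?_ hα
    intro f g hfg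
    funext b
    have := congrFun hfg (e.symm b)
    simpa using this
  · exact C_subsingleton hC _
  · intro α _ hα
    refine hC.of_injective (Option α → Γ) (Γ × (α → Γ))
      { toFun := fun f => (f none, fun a => f (some a)), map_one' := rfl,
        map_mul' := fun _ _ => rfl } ?_ (hC.prod _ _ h hα)
    intro f g hfg
    have h1 := congrArg Prod.fst hfg
    have h2 := congrArg Prod.snd hfg
    funext b
    cases b with
    | none => exact h1
    | some a => exact congrFun h2 a

/-- the permutation part -/
def permHom (X Γ : Type) [Group Γ] : Wr X Γ →* Equiv.Perm X where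
  toFun a := a.p
  map_one' := rfl
  map_mul' _ _ := rfl

/-- the sections, on the kernel of the permutation part -/
def secHom (X Γ : Type) [Group Γ] : (permHom X Γ).ker →* (X → Γ) where
  toFun a := a.1.s
  map_one' := rfl
  map_mul' a b := by
    funext x
    have hb : b.1.p = 1 := b.2
    change a.1.s (b.1.p x) * b.1.s x = a.1.s x * b.1.s x
    rw [hb]
    rfl

theorem secHom_injective (X Γ : Type) [Group Γ] : Function.Injective (secHom X Γ) := by
  intro a b hab
  apply Subtype.ext
  apply Wr.ext
  · exact hab
  · have ha : a.1.p = 1 := a.2
    have hb : b.1.p = 1 := b.2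
    rw [ha, hb]

/-- wreath products with a finite symmetric group -/
theorem t_wr : S_WR := by
  intro C hC X Γ _ hX h
  refine hC.finiteIndex (Wr X Γ) (permHom X Γ).ker inferInstance ?_
  exact hC.of_injective _ _ (secHom X Γ) (secHom_injective X Γ) (C_pow hC X Γ h)

end Pool.Agent.Y812.SS
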